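import Mathlib

/-!
# Project SQ (helper4): MP_dd1f31_an, frozen statement S06389, a full answer

`φ(x) = ∑ √k x^k / (k!)²` has only real zeros `≤ 0`.

Proof on paper. Put `K(y) = ∫_0^y (e^ρ - 1)^(-1/2) (y - ρ)^(-1/2) dρ = ∫_0^1 (σ (1-σ))^(-1/2) ψ(σ y) dσ` (`ρ = σ y`),
`ψ(x) = (x / (e^x - 1))^(1/2)` which is decreasing from `1` to `0`; so `K` is decreasing, `0 ≤ K ≤ π`. By the Laplace
transform of a convolution `∫_0^∞ k e^(-k y) K(y) dy = π √(π k) (2k)! / (4^k (k!)²)`. By the layer cake formula the left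
side is `∫_0^π (1 - q(h)^k) dh`, `q(h) = e^(-ℓ(h))`, `{K > h} = (0, ℓ(h))`. With `x = -u²/4`, `t = √q` this gives
`π^(3/2) φ(x) = ∫_0^π (cos u - cos (u t(h))) dh`. For `Im u < 0`, `a = e^(iu(1+t))`, `b = e^(iu(1-t))` have absolute value
greater than `1`, `2 e^(iu) (cos u - cos ut) = (a-1)(b-1)`, `a b = e^(2iu)`, and
`(ab-1)/((a-1)(b-1)) = ((a+1)/(a-1) + (b+1)/(b-1)) / 2` has positive real part; so the integral is not `0`.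
-/

set_option autoImplicit false

namespace Pool.Agent.U4.SQ

open MeasureTheory Set Filter Topology

/-- the kernel -/
noncomputable def K (y : ℝ) : ℝ :=
  ∫ ρ in (0 : ℝ)..y, (Real.exp ρ - 1) ^ (-(1 / 2 : ℝ)) * (y - ρ) ^ (-(1 / 2 : ℝ))

/-- the series -/
noncomputable def phi (z : ℂ) : ℂ :=
  ∑' k : ℕ, ((Real.sqrt (k : ℝ) / ((Nat.factorial k : ℝ) ^ 2) : ℝ) : ℂ) * z ^ k

/-- Package A1 (Wallis / Beta integral). Hint: substitution `x = e^(-ρ)` (or `s = √(e^ρ - 1)`) turns it into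
`∫_0^1 x^(k-1/2) (1-x)^(-1/2) dx = B(k + 1/2, 1/2) = Γ(k+1/2) Γ(1/2) / Γ(k+1)` (`Complex.betaIntegral`,
`Complex.Gamma_mul_Gamma_eq_betaIntegral`, `Real.Gamma_nat_add_half`), or into `2 ∫_0^∞ (1+s²)^(-k-1) ds` (recursion). -/
def SA1 : Prop := ∀ k : ℕ, 1 ≤ k →
  IntegrableOn (fun ρ : ℝ => Real.exp (-(k * ρ)) * (Real.exp ρ - 1) ^ (-(1 / 2 : ℝ))) (Ioi 0) ∧
    ∫ ρ in Ioi (0 : ℝ), Real.exp (-(k * ρ)) * (Real.exp ρ - 1) ^ (-(1 / 2 : ℝ)) =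
      Real.pi * (Nat.factorial (2 * k) : ℝ) / (4 ^ k * (Nat.factorial k : ℝ) ^ 2)

/-- Package A (uses A1). Hint: `MeasureTheory.integral_posConvolution` with
`f ρ = e^(-kρ) (e^ρ - 1)^(-1/2)`, `g r = e^(-kr) r^(-1/2)`, `L` = multiplication; `∫_0^∞ e^(-kr) r^(-1/2) dr = √(π/k)`
(`Real.integral_rpow_mul_exp_neg_mul_Ioi`, `Real.Gamma_one_half_eq`). -/
def SA : Prop := ∀ k : ℕ, 1 ≤ k →
  IntegrableOn (fun y : ℝ => Real.exp (-(k * y)) * K y) (Ioi 0) ∧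
  ∫ y in Ioi (0 : ℝ), (k : ℝ) * Real.exp (-(k * y)) * K y =
    Real.pi * Real.sqrt (Real.pi * k) * (Nat.factorial (2 * k) : ℝ) / (4 ^ k * (Nat.factorial k : ℝ) ^ 2)

/-- Package B. Hint: `ρ = σ y` gives `K y = ∫_0^1 (σ (1-σ))^(-1/2) (σ y / (e^(σ y) - 1))^(1/2) dσ` for `y > 0`;
`x / (e^x - 1)` is antitone on `(0, ∞)` with values in `(0, 1]`; `∫_0^1 (σ (1-σ))^(-1/2) dσ = π`. For the last part:
for `0 < x ≤ δ` small `x / (e^x - 1) ≥ 1/4`, so that `K y ≥ π / 2 ≥ 1`. -/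
def SB : Prop := AntitoneOn K (Ioi 0) ∧ (∀ y : ℝ, 0 < y → 0 ≤ K y ∧ K y ≤ Real.pi) ∧
  ∃ δ : ℝ, 0 < δ ∧ ∀ y : ℝ, 0 < y → y < δ → 1 < K y

/-- Package C (layer cake; general `F`). Hint: `q h = 1 - ∫_{y > 0, F y > h} e^(-y) dy = ∫_{y > 0, F y ≤ h} e^(-y) dy`
(monotone in `h`, so measurable), `t = √q`; the set `{y > 0, F y > h}` is an initial interval of `(0, ∞)` with
supremum `ℓ`, so that `∫_{y > 0, F y > h} k e^(-ky) dy = 1 - e^(-kℓ) = 1 - q^k`; then Fubini for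
`1_{0 < h < F y}` (or `MeasureTheory.lintegral_eq_lintegral_meas_lt`). -/
def SC : Prop := ∀ F : ℝ → ℝ, AntitoneOn F (Ioi 0) → (∀ y : ℝ, 0 < y → 0 ≤ F y ∧ F y ≤ Real.pi) →
  (∃ δ : ℝ, 0 < δ ∧ ∀ y : ℝ, 0 < y → y < δ → 1 < F y) →
  ∃ t : ℝ → ℝ, Measurable t ∧ (∀ h, 0 ≤ t h ∧ t h ≤ 1) ∧ (∀ h, 0 < h → h < 1 → t h < 1) ∧
    ∀ k : ℕ, 1 ≤ k → ∫ y in Ioi (0 : ℝ), (k : ℝ) * Real.exp (-(k * y)) * F y =
      ∫ h in (0 : ℝ)..Real.pi, (1 - t h ^ (2 * k))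

/-- Package D (nonvanishing; helper4). -/
def SD : Prop := ∀ t : ℝ → ℝ, Measurable t → (∀ h, 0 ≤ t h ∧ t h ≤ 1) → (∀ h, 0 < h → h < 1 → t h < 1) →
  ∀ u : ℂ, u.im < 0 → ∫ h in (0 : ℝ)..Real.pi, (Complex.cos u - Complex.cos (u * (t h : ℂ))) ≠ 0

/-- Package E (sum and integral). Hint: `cos u - cos (u t) = ∑_k (-1)^k u^(2k) (1 - t^(2k)) / (2k)!`,
`MeasureTheory.hasSum_integral_of_summable_integral_norm` or `intervalIntegral.hasSum_integral_of_dominated_convergence`;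
the `k`-th integral is `(-1)^k u^(2k) / (2k)!` times `∫ (1 - t^(2k))`; for `k = 0` both sides vanish. -/
def SE : Prop := ∀ t : ℝ → ℝ, Measurable t → (∀ h, 0 ≤ t h ∧ t h ≤ 1) →
  (∀ k : ℕ, 1 ≤ k → ∫ h in (0 : ℝ)..Real.pi, (1 - t h ^ (2 * k)) =
    Real.pi * Real.sqrt (Real.pi * k) * (Nat.factorial (2 * k) : ℝ) / (4 ^ k * (Nat.factorial k : ℝ) ^ 2)) →
  ∀ u : ℂ, ∫ h in (0 : ℝ)..Real.pi, (Complex.cos u - Complex.cos (u * (t h : ℂ))) =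
    ((Real.pi * Real.sqrt Real.pi : ℝ) : ℂ) * phi (-(u ^ 2) / 4)

/-- Package F (from zeros to polynomials). Hint: `Pool.Agent.H24R2.JP.had : SHad` (module `Pool.Agent.H24R2.JP.Had`)
for `f z = ∑ c_(k+1) z^k`, `c_k = √k / (k!)²`, `f 0 = 1`, `|c_(k+1)| ≤ 1 / (k!)²`,
`∑ r^k / (k!)² ≤ (∑ (√r)^k / k!)² = e^(2√r)`; then `p n = X * P n`, `phi z = z * f z`. -/
def SF : Prop := (∀ z : ℂ, phi z = 0 → z.im = 0 ∧ z.re ≤ 0) →
    ∃ p : ℕ → Polynomial ℝ,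
      (∀ n, ∀ z : ℂ, Polynomial.aeval z (p n) = 0 → z.im = 0 ∧ z.re ≤ 0) ∧
      TendstoLocallyUniformly (fun n (z : ℂ) => Polynomial.aeval z (p n))
        (fun z : ℂ => ∑' k : ℕ,
          ((Real.sqrt (k : ℝ) / ((Nat.factorial k : ℝ) ^ 2) : ℝ) : ℂ) * z ^ k)
        Filter.atTop

/-- assembly of the zeros -/
theorem zeros (hA : SA) (hB : SB) (hC : SC) (hD : SD) (hE : SE) : ∀ z : ℂ, phi z = 0 → z.im = 0 ∧ z.re ≤ 0 := by
  obtain ⟨t, h1, h2, h3, h4⟩ := hC K hB.1 hB.2.1 hB.2.2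
  have h5 := hE t h1 h2 fun k hk => by rw [← h4 k hk]; exact (hA k hk).2
  intro z hz
  by_contra hc
  -- a square root of `-4 z` with negative imaginary part
  obtain ⟨w, hw⟩ : ∃ w : ℂ, w ^ 2 = -4 * z := ⟨(-4 * z) ^ (1 / 2 : ℂ), by
    rw [← Complex.cpow_nat_mul]; norm_num⟩
  have hwim : w.im ≠ 0 := by
    intro h0
    apply hc
    have e : w = (w.re : ℂ) := by
      apply Complex.ext <;> simp [h0]
    rw [e] at hw
    have e2 : z = ((-(w.re ^ 2) / 4 : ℝ) : ℂ) := by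
      push_cast
      linear_combination (1 / 4 : ℂ) * hw
    rw [e2]
    refine ⟨Complex.ofReal_im _, ?_⟩
    rw [Complex.ofReal_re]
    have := sq_nonneg w.re
    linarith
  obtain ⟨u, hu, huim⟩ : ∃ u : ℂ, u ^ 2 = -4 * z ∧ u.im < 0 := by
    rcases lt_or_gt_of_ne hwim with h | h
    · exact ⟨w, hw, h⟩
    · exact ⟨-w, by rw [neg_sq, hw], by rw [Complex.neg_im]; linarith⟩
  have h6 := h5 u
  have e : -(u ^ 2) / 4 = z := by rw [hu]; ring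
  rw [e, hz, mul_zero] at h6
  exact hD t h1 h2 h3 u huim h6

/-- **assembly** -/
theorem main (hA : SA) (hB : SB) (hC : SC) (hD : SD) (hE : SE) (hF : SF) :
    ∃ p : ℕ → Polynomial ℝ,
      (∀ n, ∀ z : ℂ, Polynomial.aeval z (p n) = 0 → z.im = 0 ∧ z.re ≤ 0) ∧
      TendstoLocallyUniformly (fun n (z : ℂ) => Polynomial.aeval z (p n))
        (fun z : ℂ => ∑' k : ℕ,
          ((Real.sqrt (k : ℝ) / ((Nat.factorial k : ℝ) ^ 2) : ℝ) : ℂ) * z ^ k)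
        Filter.atTop := hF (zeros hA hB hC hD hE)

end Pool.Agent.U4.SQ
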